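import Mathlib
import Pool.Agent.MP_5e7104_an.H55.MRA

set_option autoImplicit false

namespace Pool.Agent.Results.MP_5e7104_an.Cardinal

open MeasureTheory Pool.Agent.MP_5e7104_an.H55

theorem result :
    ∃ (φ : ℝ → ℂ) (P : ℤ) (t₀ : ℝ) (e : ℤ → ℤ → Lp ℂ 2 (volume : Measure ℝ))
      (V : ℤ → Submodule ℂ (Lp ℂ 2 (volume : Measure ℝ))),
      Continuous φ ∧ HasCompactSupport φ ∧ MemLp φ 2 (volume : Measure ℝ) ∧
      (∀ j k : ℤ, (e j k : ℝ → ℂ) =ᵐ[volume]
        fun t : ℝ => (((2 : ℝ) ^ ((j : ℝ) / 2) : ℝ) : ℂ) * φ ((2 : ℝ) ^ j * t - k)) ∧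
      (∀ j : ℤ, V j = (Submodule.span ℂ (Set.range (e j))).topologicalClosure) ∧
      Orthonormal ℂ (e 0) ∧
      (∃ (s : Finset ℤ) (d : ℤ → ℂ), ∀ t : ℝ, φ (t / 2) = ∑ k ∈ s, d k * φ (t - k)) ∧
      (∀ j : ℤ, V j ≤ V (j + 1)) ∧
      Dense (⋃ j : ℤ, (V j : Set (Lp ℂ 2 (volume : Measure ℝ)))) ∧
      (⋂ j : ℤ, (V j : Set (Lp ℂ 2 (volume : Measure ℝ)))) = {0} ∧
      ∀ k : ℤ, φ (t₀ + k) = if k - P = 0 then 1 else 0 := by
  obtain ⟨φ, F, h, hF, F0, F2, hφ, hc, z0, z3, hr, hA, hcard⟩ := exists_phi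
  have hmem : ∀ j k : ℤ, MemLp
      (fun t : ℝ => ((cj j : ℝ) : ℂ) * ((φ ((2 : ℝ) ^ j * t - k) : ℝ) : ℂ)) 2
      (volume : Measure ℝ) := by
    intro j k
    apply Continuous.memLp_of_hasCompactSupport
    · fun_prop
    · exact ((supp_affine z0 z3 (zpow_pos two_pos j) (k : ℝ)).comp_left
        (g := fun x : ℝ => (x : ℂ)) (by simp)).mul_left
  set e : ℤ → ℤ → H := fun j k => (hmem j k).toLp _ with hed
  have he : ∀ j k : ℤ, (e j k : ℝ → ℂ) =ᵐ[volume]
      fun t : ℝ => ((cj j : ℝ) : ℂ) * ((φ ((2 : ℝ) ^ j * t - k) : ℝ) : ℂ) :=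
    fun j k => (hmem j k).coeFn_toLp
  set V : ℤ → Submodule ℂ H := fun j => (Submodule.span ℂ (Set.range (e j))).topologicalClosure
    with hV
  have hcs : HasCompactSupport (fun x : ℝ => ((φ x : ℝ) : ℂ)) := by
    have := (supp_affine z0 z3 one_pos 0).comp_left (g := fun x : ℝ => (x : ℂ)) (by simp)
    simpa [Function.comp_def] using this
  have hcc : Continuous (fun x : ℝ => ((φ x : ℝ) : ℂ)) := by fun_prop
  have hmono : ∀ j : ℤ, V j ≤ V (j + 1) := by
    intro j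
    apply Submodule.topologicalClosure_mono
    rw [Submodule.span_le]
    rintro _ ⟨k, rfl⟩
    rw [e_refine he hr j k]
    exact Submodule.sum_mem _ fun m _ =>
      Submodule.smul_mem _ _ (Submodule.subset_span ⟨_, rfl⟩)
  refine ⟨fun x => ((φ x : ℝ) : ℂ), 0, 2 / 3, e, V, hcc, hcs,
    hcc.memLp_of_hasCompactSupport hcs, he, fun _ => rfl, orthonormal_e he hA 0, ?_, hmono, ?_, ?_,
    fun k => ?_⟩
  · refine ⟨{0, 1, 2, 3}, fun k => ((h k.toNat : ℝ) : ℂ), fun t => ?_⟩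
    simp only
    rw [hr (t / 2), show 2 * (t / 2) = t by ring]
    simp [Finset.sum_range_succ, add_assoc]
  · have hdir : Directed (· ≤ ·) V := (monotone_int_of_le_succ hmono).directed_le
    rw [← Submodule.coe_iSup_of_directed V hdir, Submodule.dense_iff_topologicalClosure_eq_top,
      Submodule.topologicalClosure_eq_top_iff, Submodule.eq_bot_iff]
    intro f hf
    apply dense_aux hF F0 F2 hφ hc z0 z3 f
    intro j k
    have h1 : e j k ∈ iSup V := (le_iSup V j)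
      (Submodule.le_topologicalClosure _ (Submodule.subset_span ⟨k, rfl⟩))
    have h2 := Submodule.inner_right_of_mem_orthogonal h1 hf
    rw [inner_e he] at h2
    exact (mul_eq_zero.mp h2).resolve_left (by exact_mod_cast (cj_pos j).ne')
  · obtain ⟨M, -, hM⟩ := exists_bound hF F0 F2
    have hM' : ∀ x, |φ x| ≤ 2 * M := fun x => by
      rw [hφ]
      refine (abs_sub _ _).trans ?_
      linarith [hM x, hM (x - 1)]
    apply Set.eq_singleton_iff_unique_mem.mpr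
    refine ⟨Set.mem_iInter.mpr fun j => (V j).zero_mem, fun f hf => ?_⟩
    exact inter_aux he hA hM' z0 z3 f (fun j => Set.mem_iInter.mp hf j)
  · simp only [hcard k, sub_zero]
    split_ifs <;> simp

end Pool.Agent.Results.MP_5e7104_an.Cardinal
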